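import Pool.Agent.TH579.HH.Defs

/-!
# HH-J4: the 55 points are not on a curve of degree 9
-/

set_option autoImplicit false

namespace Pool.Agent.TH230.HH

open Pool.Agent.TH579.HH

theorem card_S9 : (S 9).card = 55 := by decide +kernel

theorem dvd_mono {A : Type} [CommRing A] {q x x0 y y0 : A} (hx : q ∣ x - x0) (hy : q ∣ y - y0)
    (a b : ℕ) (r : A) : q ∣ x ^ a * y ^ b * r - x0 ^ a * y0 ^ b * r := by
  have h1 : q ∣ x ^ a - x0 ^ a := hx.trans (sub_dvd_pow_sub_pow x x0 a)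
  have h2 : q ∣ y ^ b - y0 ^ b := hy.trans (sub_dvd_pow_sub_pow y y0 b)
  have e : x ^ a * y ^ b * r - x0 ^ a * y0 ^ b * r =
      (y ^ b - y0 ^ b) * (x ^ a * r) + (x ^ a - x0 ^ a) * (y0 ^ b * r) := by ring
  rw [e]
  exact dvd_add (h2.mul_right _) (h1.mul_right _)

theorem indep : Pool.Agent.TH579.HH.St_indep := by
  intro p hp x0 y0 R hR x y hx hy k _ φ hφ c hc
  classical
  let e : Fin 55 ≃ S 9 := (Finset.equivFinOfCardEq card_S9).symm
  let E : Matrix (Fin 55) (Fin 55) ℤ_[p] :=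
    Matrix.of fun i j => x i ^ (e j).1.1 * y i ^ (e j).1.2
  let R' : Matrix (Fin 55) (Fin 55) ℤ_[p] := Matrix.of fun j l => ((R (e j).1 l : ℤ) : ℤ_[p])
  have hER : ∀ i l : Fin 55, ∃ t : ℤ_[p],
      (E * R') i l = (p : ℤ_[p]) ^ 2 * ((1 : Matrix (Fin 55) (Fin 55) ℤ_[p]) i l + p * t) := by
    intro i l
    have h1 : (E * R') i l = ∑ m ∈ S 9, x i ^ m.1 * y i ^ m.2 * ((R m l : ℤ) : ℤ_[p]) := by
      rw [Matrix.mul_apply, ← Finset.sum_coe_sort (S 9)]
      exact Fintype.sum_equiv e _ _ fun j => rfl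
    have h2 : (p : ℤ_[p]) ^ 3 ∣ (∑ m ∈ S 9, x i ^ m.1 * y i ^ m.2 * ((R m l : ℤ) : ℤ_[p])) -
        ∑ m ∈ S 9, (x0 i : ℤ_[p]) ^ m.1 * (y0 i : ℤ_[p]) ^ m.2 * ((R m l : ℤ) : ℤ_[p]) := by
      rw [← Finset.sum_sub_distrib]
      exact Finset.dvd_sum fun m _ => dvd_mono (hx i) (hy i) _ _ _
    have h3 : (p : ℤ_[p]) ^ 3 ∣
        (∑ m ∈ S 9, (x0 i : ℤ_[p]) ^ m.1 * (y0 i : ℤ_[p]) ^ m.2 * ((R m l : ℤ) : ℤ_[p])) -
        (if (i : ℕ) = (l : ℕ) then (p : ℤ_[p]) ^ 2 else 0) := by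
      have h4 := hR i i.2 l l.2
      have h5 := map_dvd (Int.castRingHom ℤ_[p]) h4
      by_cases hil : (i : ℕ) = (l : ℕ)
      · simp only [hil, if_true] at h5 ⊢
        simpa using h5
      · simp only [hil, if_false] at h5 ⊢
        simpa using h5
    obtain ⟨t, ht⟩ := dvd_add h2 h3
    refine ⟨t, ?_⟩
    rw [h1]
    have h6 : (1 : Matrix (Fin 55) (Fin 55) ℤ_[p]) i l = if (i : ℕ) = (l : ℕ) then 1 else 0 := by
      rw [Matrix.one_apply]
      by_cases hil : i = l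
      · subst hil
        simp
      · have : ¬ ((i : ℕ) = (l : ℕ)) := fun h => hil (Fin.ext h)
        simp [hil, this]
    rw [h6]
    by_cases hil : (i : ℕ) = (l : ℕ)
    · simp only [hil, if_true] at ht ⊢
      linear_combination ht
    · simp only [hil, if_false] at ht ⊢
      linear_combination ht
  choose N hN using hER
  let N' : Matrix (Fin 55) (Fin 55) ℤ_[p] := Matrix.of N
  have hprod : E * R' = ((p : ℤ_[p]) ^ 2) • (1 + (p : ℤ_[p]) • N') := by
    ext i l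
    rw [hN i l, Matrix.smul_apply, Matrix.add_apply, Matrix.smul_apply, smul_eq_mul, smul_eq_mul]
    rfl
  have hdet1 : (1 + (p : ℤ_[p]) • N').det ≠ 0 := by
    intro h0
    have h1 := congrArg (PadicInt.toZMod (p := p)) h0
    rw [RingHom.map_det, map_zero] at h1
    have h2 : (PadicInt.toZMod (p := p)).mapMatrix (1 + (p : ℤ_[p]) • N') = 1 := by
      rw [map_add, map_one]
      have h3 : (PadicInt.toZMod (p := p)).mapMatrix ((p : ℤ_[p]) • N') = 0 := by
        ext i l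
        rw [RingHom.mapMatrix_apply, Matrix.map_apply, Matrix.smul_apply, smul_eq_mul, map_mul,
          map_natCast, ZMod.natCast_self, zero_mul]
        rfl
      rw [h3, add_zero]
    rw [h2, Matrix.det_one] at h1
    exact one_ne_zero h1
  have hE : E.det ≠ 0 := by
    intro h0
    have h1 : (E * R').det = 0 := by rw [Matrix.det_mul, h0, zero_mul]
    rw [hprod, Matrix.det_smul] at h1
    have hp0 : (p : ℤ_[p]) ≠ 0 := by
      exact_mod_cast hp.out.ne_zero
    exact mul_ne_zero (pow_ne_zero _ (pow_ne_zero _ hp0)) hdet1 h1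
  have hφE : (φ.mapMatrix E).det ≠ 0 := by
    rw [← RingHom.map_det]
    intro h
    exact hE (hφ (by rw [h, map_zero]))
  have hz : (φ.mapMatrix E).mulVec (fun j => c (e j).1) = 0 := by
    funext i
    have h1 := hc i i.2
    rw [← Finset.sum_coe_sort (S 9)] at h1
    have h2 : (φ.mapMatrix E).mulVec (fun j => c (e j).1) i =
        ∑ m : S 9, c m.1 * φ (x i) ^ m.1.1 * φ (y i) ^ m.1.2 := by
      simp only [Matrix.mulVec, dotProduct]
      refine Fintype.sum_equiv e _ _ fun j => ?_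
      show φ (x i ^ (e j).1.1 * y i ^ (e j).1.2) * c (e j).1 = _
      rw [map_mul, map_pow, map_pow]
      ring
    rw [h2, h1]
    rfl
  have hv := Matrix.eq_zero_of_mulVec_eq_zero hφE hz
  intro m hm
  have := congrFun hv (e.symm ⟨m, hm⟩)
  simpa using this

end Pool.Agent.TH230.HH
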